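import Pool.Agent.H379R3.CDQ.Stmts

set_option autoImplicit false

namespace Pool.Agent.H347.CDQ

open Pool.Agent.H379R3.CDQ

theorem taskIdx : TaskIdx := by
  intro k _ hodd U hU
  haveI : Finite (GG k ⧸ U) := Subgroup.quotient_finite_of_isOpen U hU
  haveI : U.FiniteIndex := Subgroup.finiteIndex_of_finite_quotient
  have hUc : IsClosed (U : Set (GG k)) := Subgroup.isClosed_of_isOpen U hU
  have hNc : IsClosed (U.normalCore : Set (GG k)) := U.normalCore_isClosed hUc
  have hNo : IsOpen (U.normalCore : Set (GG k)) :=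
    Subgroup.isOpen_of_isClosed_of_finiteIndex _ hNc
  haveI : Finite (GG k ⧸ U.normalCore) := Subgroup.quotient_finite_of_isOpen _ hNo
  obtain ⟨P⟩ : Nonempty (Sylow 2 (GG k ⧸ U.normalCore)) := inferInstance
  have hNV : U.normalCore ≤
      (P : Subgroup (GG k ⧸ U.normalCore)).comap (QuotientGroup.mk' U.normalCore) := by
    intro x hx
    rw [Subgroup.mem_comap]
    have : QuotientGroup.mk' U.normalCore x = 1 := by
      rwa [QuotientGroup.mk'_apply, QuotientGroup.eq_one_iff]
    rw [this]
    exact one_mem _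
  have hVo : IsOpen (((P : Subgroup (GG k ⧸ U.normalCore)).comap
      (QuotientGroup.mk' U.normalCore) : Subgroup (GG k)) : Set (GG k)) :=
    Subgroup.isOpen_mono hNV hNo
  have hVi : ((P : Subgroup (GG k ⧸ U.normalCore)).comap
      (QuotientGroup.mk' U.normalCore)).index = (P : Subgroup (GG k ⧸ U.normalCore)).index :=
    Subgroup.index_comap_of_surjective _ (QuotientGroup.mk'_surjective _)
  have hPi : ¬ 2 ∣ (P : Subgroup (GG k ⧸ U.normalCore)).index := P.not_dvd_index
  generalize hV : (P : Subgroup (GG k ⧸ U.normalCore)).comap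
      (QuotientGroup.mk' U.normalCore) = V at *
  have hVc : IsClosed (V : Set (GG k)) := Subgroup.isClosed_of_isOpen V hVo
  have hodd' : Odd V.index := by
    rw [hVi]
    exact Nat.not_even_iff_odd.mp (fun h => hPi h.two_dvd)
  have hfix : (IntermediateField.fixedField V).fixingSubgroup = V :=
    InfiniteGalois.fixingSubgroup_fixedField ⟨V, hVc⟩
  have hrank : Module.finrank k (IntermediateField.fixedField V) = V.index := by
    rw [IntermediateField.finrank_eq_fixingSubgroup_index, hfix]
  haveI hfd : FiniteDimensional k (IntermediateField.fixedField V) := by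
    apply Module.finite_of_finrank_pos
    rw [hrank]
    exact hodd'.pos
  have h1 : Module.finrank k (IntermediateField.fixedField V) = 1 :=
    hodd (IntermediateField.fixedField V) (by rw [hrank]; exact hodd')
  have hPt : (P : Subgroup (GG k ⧸ U.normalCore)) = ⊤ :=
    Subgroup.index_eq_one.mp (by rw [← hVi, ← hrank]; exact h1)
  have hp : IsPGroup 2 (GG k ⧸ U.normalCore) := by
    have h2 := P.isPGroup'
    intro g
    obtain ⟨j, hj⟩ := h2 ⟨g, by rw [hPt]; trivial⟩
    exact ⟨j, by simpa using congrArg Subtype.val hj⟩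
  obtain ⟨n, hn⟩ := IsPGroup.iff_card.mp hp
  have hd : U.index ∣ 2 ^ n := by
    have : U.normalCore.index = 2 ^ n := by
      rw [← hn]
      rfl
    rw [← this]
    exact Subgroup.index_dvd_of_le U.normalCore_le
  obtain ⟨m, _, hm⟩ := (Nat.dvd_prime_pow Nat.prime_two).mp hd
  exact ⟨m, hm⟩

end Pool.Agent.H347.CDQ
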